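import Pool.Agent.Q322.RD.Main
import Pool.Agent.Q322.RD.AlgPoly
import Pool.Agent.Q322.RD.TaskAlg
import Pool.Agent.Q322.RD.TaskBall
import Pool.Agent.Q322.RD.TaskBwd
import Pool.Agent.Q322.RD.TaskCount
import Pool.Agent.Q322.RD.TaskCube
import Pool.Agent.Q322.RD.TaskFwd
import Pool.Agent.Q322.RD.TaskInstPoly
import Pool.Agent.Q322.RD.TaskValid

/-!
# r-Dominating Set parameterized by a split modulator

For `r = 2` the problem is W[2]-hard, for every fixed `r ≥ 3` it is fixed-parameter tractable.

`r = 2`: reduction from Dominating Set: for each of `q` chosen vertices there is a vertex `x_i` of the modulator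
with a pendant vertex and with the copies `(i, v)` of all vertices `v` as neighbours; `(i, v)` is adjacent to the
clique vertices `u` which `v` dominates; every clique vertex has a pendant vertex.

`r ≥ 3`: at most `k + 2^k + 4^k` different balls of radius `r` around vertices which are not isolated.
-/

namespace Pool.Agent.Results.MP_918064_lc.SplitModulator

open Pool.Agent.NPC Pool.Agent.H633R2 Pool.Agent.Q322.RD

/-- `2`-Dominating Set parameterized by the size of a given split modulator is W[2]-hard; hence, if it were
fixed-parameter tractable, all problems in W[2] would be. For every fixed `r ≥ 3`, `r`-Dominating Set with this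
parameter is fixed-parameter tractable. -/
theorem result :
    PromiseW2Hard par Valid (RDS 2) ∧
      (PromiseFpt par Valid (RDS 2) →
        ∀ (α : Type) [TEnc α] (κ : α → ℕ) (P : α → Prop), InW2 κ P → IsFpt κ P) ∧
      ∀ r : ℕ, 3 ≤ r → PromiseFpt par Valid (RDS r) := by
  have h := hard_of taskFwd TBwd.main taskValid taskInstPoly
  exact ⟨h, fun hf α _ κ P hP => h.collapse hf α κ P hP,
    fun r hr => fpt_of taskBall TaskCube_proof taskCount TaskAlg.main taskAlgPoly r hr⟩

end Pool.Agent.Results.MP_918064_lc.SplitModulator
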